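import Pool.Agent.H57.NV.NSD

/-!
# (FDN): the density of the enlarged family
-/

set_option autoImplicit false

open NumberField
open scoped nonZeroDivisors

namespace Pool.Agent.H57.NV

open Pool.Agent.H95.NV (T_FDN)
open Pool.Agent.H65.CM4 (nm dg)
open Pool.Agent.H89.NV (PrI np nS idS ni Dis good Rs qN dR)

section

variable {k : Type} [Field k] [NumberField k]

theorem ni_ne {m : ℕ} (hm : m ≠ 0) : ni k m ≠ ⊥ := by
  unfold ni
  rw [Ne, Ideal.span_singleton_eq_bot, Nat.cast_eq_zero]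
  exact hm

theorem absNorm_ni (m : ℕ) : Ideal.absNorm (ni k m) = m ^ dg k := by
  unfold ni dg
  rw [Ideal.absNorm_span_natCast, RingOfIntegers.rank]

theorem ni4 : ni k 4 = ni k 2 * ni k 2 := by
  unfold ni
  rw [Ideal.span_singleton_mul_span_singleton, ← Nat.cast_mul]

theorem mem_ni2 {g : Ideal (𝓞 k)} {t : 𝓞 k} (ht : t ∈ g) : 2 * t ∈ ni k 2 * g := by
  refine Ideal.mul_mem_mul ?_ ht
  unfold ni
  rw [Nat.cast_ofNat]
  exact Ideal.mem_span_singleton_self _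

theorem mem_ni4 {g : Ideal (𝓞 k)} {t : 𝓞 k} (ht : t ∈ g) : 4 * t ∈ ni k 4 * g := by
  refine Ideal.mul_mem_mul ?_ ht
  unfold ni
  rw [Nat.cast_ofNat]
  exact Ideal.mem_span_singleton_self _

theorem of_mem_ni2 {g : Ideal (𝓞 k)} {u : 𝓞 k} (hu : u ∈ ni k 2 * g) : ∃ t ∈ g, u = 2 * t := by
  unfold ni at hu
  rw [Ideal.mem_span_singleton_mul] at hu
  obtain ⟨t, ht, h⟩ := hu
  rw [Nat.cast_ofNat] at h
  exact ⟨t, ht, h.symm⟩

/-- the middle coefficient is unique modulo `2 g` -/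
theorem sq_uniq {g : Ideal (𝓞 k)} (hg : g ≠ ⊥) {u b : 𝓞 k} (hu : u ∈ g) (hb : b ∈ g)
    (h : u * (u + 2 * b) ∈ ni k 4 * g ^ 2) : u ∈ ni k 2 * g := by
  have hn : ni k 2 * g ≠ ⊥ := mul_ne_zero (ni_ne two_ne_zero) hg
  set G := ni k 2 * g with hG
  set I := Ideal.span {u} ⊔ G with hI
  have hGI : G ≤ I := le_sup_right
  have huI : u ∈ I := Ideal.mem_sup_left (Ideal.mem_span_singleton_self u)
  have hI0 : I ≠ ⊥ := by
    intro h0
    rw [h0] at hGI
    exact hn (le_bot_iff.1 hGI)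
  have h4 : ni k 4 * g ^ 2 = G * G := by
    rw [hG, ni4]
    ring
  have huu : u * u ∈ G * I := by
    have e : u * u = u * (u + 2 * b) - (2 * b) * u := by ring
    rw [e]
    refine Ideal.sub_mem _ ?_ (Ideal.mul_mem_mul (mem_ni2 hb) huI)
    rw [h4] at h
    exact Ideal.mul_mono_right hGI h
  have hII : I * I ≤ G * I := by
    rw [Ideal.mul_le]
    intro r hr s hs
    obtain ⟨r1, hr1, x, hx, rfl⟩ := Submodule.mem_sup.1 hr
    obtain ⟨a, rfl⟩ := Ideal.mem_span_singleton'.1 hr1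
    obtain ⟨s1, hs1, y, hy, rfl⟩ := Submodule.mem_sup.1 hs
    obtain ⟨c, rfl⟩ := Ideal.mem_span_singleton'.1 hs1
    have e : (a * u + x) * (c * u + y) = a * c * (u * u) + y * (a * u) + x * (c * u + y) := by ring
    rw [e]
    refine Ideal.add_mem _ (Ideal.add_mem _ (Ideal.mul_mem_left _ _ huu) ?_) ?_
    · exact Ideal.mul_mem_mul hy (Ideal.mul_mem_left _ _ huI)
    · exact Ideal.mul_mem_mul hx hs
  have hle : I ≤ G := by
    rw [← Ideal.dvd_iff_le] at hII ⊢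
    exact (mul_dvd_mul_iff_right hI0).1 hII
  exact hle huI

theorem per_Dis (g : Ideal (𝓞 k)) : Per (ni k 4 * g ^ 2) (Dis g) := by
  have key : ∀ x y, x - y ∈ ni k 4 * g ^ 2 → Dis g x → Dis g y := by
    rintro x y h ⟨b, hb, hb2⟩
    refine ⟨b, hb, ?_⟩
    have := Ideal.sub_mem _ hb2 h
    have e : b ^ 2 + x - (x - y) = b ^ 2 + y := by ring
    rwa [e] at this
  intro x y h
  refine ⟨key x y h, key y x ?_⟩
  have := (ni k 4 * g ^ 2).neg_mem h
  rwa [neg_sub] at this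

theorem Dis_mem {g : Ideal (𝓞 k)} {D : 𝓞 k} (h : Dis g D) : D ∈ g ^ 2 := by
  obtain ⟨b, hb, h2⟩ := h
  have h3 : b ^ 2 + D ∈ g ^ 2 := Ideal.mul_le_right h2
  have := Ideal.sub_mem _ h3 (Ideal.pow_mem_pow hb 2)
  rwa [add_sub_cancel_left] at this

theorem Dis_mono {g g' : Ideal (𝓞 k)} (hgg : g ≤ g') {D : 𝓞 k} (h : Dis g D) : Dis g' D := by
  obtain ⟨b, hb, h2⟩ := h
  exact ⟨b, hgg hb, Ideal.mul_mono_right (Ideal.pow_right_mono hgg 2) h2⟩

/-- the number of the classes of discriminants -/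
theorem cnt_Dis {g : Ideal (𝓞 k)} (hg : g ≠ ⊥) : cnt (ni k 4 * g ^ 2) (Dis g) = 2 ^ dg k := by
  have hn2 : ni k 2 * g ≠ ⊥ := mul_ne_zero (ni_ne two_ne_zero) hg
  have hn4 : ni k 4 * g ^ 2 ≠ ⊥ := mul_ne_zero (ni_ne four_ne_zero) (pow_ne_zero 2 hg)
  have hle : ni k 2 * g ≤ g := Ideal.mul_le_right
  have h1 : cnt (ni k 2 * g) (fun b => b ∈ g) = cnt (ni k 4 * g ^ 2) (Dis g) := by
    unfold cnt
    refine Finset.card_bij (fun b _ => rp (ni k 4 * g ^ 2) (-b ^ 2)) ?_ ?_ ?_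
    · intro b hb
      rw [mem_cs] at hb ⊢
      refine ⟨rp_mem hn4 _, (per_Dis g _ _ (rp_sub _ _)).2 ⟨b, hb.2, ?_⟩⟩
      rw [add_neg_cancel]
      exact Ideal.zero_mem _
    · intro b hb b' hb' he
      rw [mem_cs] at hb hb'
      refine Rs_inj hn2 hb.1 hb'.1 (sq_uniq hg (b := b') (g.sub_mem hb.2 hb'.2) hb'.2 ?_)
      have h3 := rp_sub (ni k 4 * g ^ 2) (-b ^ 2)
      have h4 := rp_sub (ni k 4 * g ^ 2) (-b' ^ 2)
      rw [he] at h3
      have := Ideal.sub_mem _ h3 h4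
      have e : rp (ni k 4 * g ^ 2) (-b' ^ 2) - -b ^ 2 - (rp (ni k 4 * g ^ 2) (-b' ^ 2) - -b' ^ 2) =
        (b - b') * (b - b' + 2 * b') := by ring
      rwa [e] at this
    · intro x hx
      rw [mem_cs] at hx
      obtain ⟨hx1, b, hb, hb2⟩ := hx
      refine ⟨rp (ni k 2 * g) b, ?_, ?_⟩
      · rw [mem_cs]
        exact ⟨rp_mem hn2 _, (per_mem' hle _ _ (rp_sub _ _)).2 hb⟩
      · have h3 : -rp (ni k 2 * g) b ^ 2 - x ∈ ni k 4 * g ^ 2 := by
          obtain ⟨t, ht, h4⟩ := of_mem_ni2 (rp_sub (ni k 2 * g) b)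
          have h5 : rp (ni k 2 * g) b = b + 2 * t := by
            rw [← h4]
            ring
          have e : -rp (ni k 2 * g) b ^ 2 - x = -(b ^ 2 + x) - 4 * (t * (b + t)) := by
            rw [h5]
            ring
          rw [e]
          refine Ideal.sub_mem _ (Ideal.neg_mem_iff _ |>.2 hb2) (mem_ni4 ?_)
          rw [pow_two]
          exact Ideal.mul_mem_mul ht (g.add_mem hb ht)
        rw [rp_eq h3]
        exact (mem_Rs hn4 x).1 hx1
  rw [← h1]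
  have h2 := cnt_mem hn2 hle
  rw [map_mul, absNorm_ni] at h2
  have h3 : Ideal.absNorm g ≠ 0 := by
    rw [Ne, Ideal.absNorm_eq_zero_iff]
    exact hg
  exact Nat.eq_of_mul_eq_mul_right (Nat.pos_of_ne_zero h3) h2

/-- Chinese remainder theorem for discriminants -/
theorem Dis_crt {f A B : Ideal (𝓞 k)} (hf : f ≠ ⊥) (hAB : A ⊔ B = ⊤) {D : 𝓞 k}
    (h1 : Dis (A * f) D) (h2 : Dis (B * f) D) : Dis (A * B * f) D := by
  obtain ⟨b₁, hb₁, hc₁⟩ := h1
  obtain ⟨b₂, hb₂, hc₂⟩ := h2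
  have hAf : A * f ≤ f := Ideal.mul_le_right
  have hBf : B * f ≤ f := Ideal.mul_le_right
  have hd : b₂ - b₁ ∈ ni k 2 * f := by
    refine sq_uniq hf (f.sub_mem (hBf hb₂) (hAf hb₁)) (hAf hb₁) ?_
    have h3 : b₁ ^ 2 + D ∈ ni k 4 * f ^ 2 := Ideal.mul_mono_right (Ideal.pow_right_mono hAf 2) hc₁
    have h4 : b₂ ^ 2 + D ∈ ni k 4 * f ^ 2 := Ideal.mul_mono_right (Ideal.pow_right_mono hBf 2) hc₂
    have := Ideal.sub_mem _ h4 h3
    have e : b₂ ^ 2 + D - (b₁ ^ 2 + D) = (b₂ - b₁) * (b₂ - b₁ + 2 * b₁) := by ring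
    rwa [e] at this
  obtain ⟨t, ht, hd⟩ := of_mem_ni2 hd
  obtain ⟨a, ha, b, hb, hab⟩ := Submodule.mem_sup.1 ((Ideal.eq_top_iff_one _).1 hAB)
  have hb' : b = 1 - a := by rw [← hab]; ring
  have e1 : b * b₁ + a * b₂ = b₁ + 2 * (a * t) := by
    have : b₂ = b₁ + 2 * t := by rw [← hd]; ring
    rw [this, hb']
    ring
  have e2 : b * b₁ + a * b₂ = b₂ - 2 * (b * t) := by
    have : b₁ = b₂ - 2 * t := by rw [← hd]; ring
    rw [this, hb']
    ring
  refine ⟨b * b₁ + a * b₂, ?_, ?_⟩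
  · refine Ideal.add_mem _ ?_ ?_
    · rw [mul_comm A B, mul_assoc]
      exact Ideal.mul_mem_mul hb hb₁
    · rw [mul_assoc]
      exact Ideal.mul_mem_mul ha hb₂
  · -- modulo both
    have m1 : (b * b₁ + a * b₂) ^ 2 + D ∈ ni k 4 * (A * f) ^ 2 := by
      rw [e1]
      have e : (b₁ + 2 * (a * t)) ^ 2 + D = (b₁ ^ 2 + D) + 4 * ((a * t) * (b₁ + a * t)) := by ring
      rw [e]
      refine Ideal.add_mem _ hc₁ (mem_ni4 ?_)
      rw [pow_two]
      exact Ideal.mul_mem_mul (Ideal.mul_mem_mul ha ht)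
        (Ideal.add_mem _ hb₁ (Ideal.mul_mem_mul ha ht))
    have m2 : (b * b₁ + a * b₂) ^ 2 + D ∈ ni k 4 * (B * f) ^ 2 := by
      rw [e2]
      have e : (b₂ - 2 * (b * t)) ^ 2 + D = (b₂ ^ 2 + D) - 4 * ((b * t) * (b₂ - b * t)) := by ring
      rw [e]
      refine Ideal.sub_mem _ hc₂ (mem_ni4 ?_)
      rw [pow_two]
      exact Ideal.mul_mem_mul (Ideal.mul_mem_mul hb ht)
        (Ideal.sub_mem _ hb₂ (Ideal.mul_mem_mul hb ht))
    have hcop : A ^ 2 ⊔ B ^ 2 = ⊤ := Ideal.pow_sup_pow_eq_top hAB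
    obtain ⟨p, hp, q, hq, hpq⟩ := Submodule.mem_sup.1 ((Ideal.eq_top_iff_one _).1 hcop)
    set X := (b * b₁ + a * b₂) ^ 2 + D with hX
    have eX : X = p * X + q * X := by rw [← add_mul, hpq, one_mul]
    rw [eX]
    refine Ideal.add_mem _ ?_ ?_
    · have e : ni k 4 * (A * B * f) ^ 2 = A ^ 2 * (ni k 4 * (B * f) ^ 2) := by ring
      rw [e]
      exact Ideal.mul_mem_mul hp m2
    · have e : ni k 4 * (A * B * f) ^ 2 = B ^ 2 * (ni k 4 * (A * f) ^ 2) := by ring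
      rw [e]
      exact Ideal.mul_mem_mul hq m1

open Classical in
theorem cnt_split (I : Ideal (𝓞 k)) (p q : 𝓞 k → Prop) :
    cnt I (fun x => p x ∧ ¬ q x) + cnt I (fun x => p x ∧ q x) = cnt I p := by
  have h := Finset.card_filter_add_card_filter_not (s := cs I p) q
  have h1 : (cs I p).filter q = cs I (fun x => p x ∧ q x) := by
    ext x
    rw [Finset.mem_filter, mem_cs, mem_cs, and_assoc]
  have h2 : (cs I p).filter (fun x => ¬ q x) = cs I (fun x => p x ∧ ¬ q x) := by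
    ext x
    rw [Finset.mem_filter, mem_cs, mem_cs, and_assoc]
  rw [h1, h2] at h
  unfold cnt
  omega

theorem nm_idS (S : Finset (PrI k)) : nm (idS S) = nS S := by
  unfold nm idS nS np nm
  rw [map_prod, Nat.cast_prod]

theorem np_pos (P : PrI k) : 0 < np P := by
  unfold np nm
  have : Ideal.absNorm P.1 ≠ 0 := by
    rw [Ne, Ideal.absNorm_eq_zero_iff]
    exact P.2.2
  exact_mod_cast Nat.pos_of_ne_zero this

theorem nm_mul (I J : Ideal (𝓞 k)) : nm (I * J) = nm I * nm J := by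
  unfold nm
  rw [map_mul, Nat.cast_mul]

theorem nm_pow (I : Ideal (𝓞 k)) (m : ℕ) : nm (I ^ m) = nm I ^ m := by
  unfold nm
  rw [map_pow, Nat.cast_pow]

theorem nm_pos' {I : Ideal (𝓞 k)} (hI : I ≠ ⊥) : 0 < nm I := by
  unfold nm
  have : Ideal.absNorm I ≠ 0 := by
    rw [Ne, Ideal.absNorm_eq_zero_iff]
    exact hI
  exact_mod_cast Nat.pos_of_ne_zero this

/-- the number of the discriminants for `S` -/
theorem cnt_DisS {f : Ideal (𝓞 k)} (hf : f ≠ ⊥) {R S : Finset (PrI k)} (hS : S ⊆ R) :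
    (cnt (qN R * f ^ 2) (Dis (idS S * f)) : ℝ) * nS S ^ 2 = 2 ^ dg k * nS R ^ 2 := by
  have hg : idS S * f ≠ ⊥ := mul_ne_zero (idS_ne S) hf
  have hI : qN R * f ^ 2 ≠ ⊥ := by
    unfold qN
    exact mul_ne_zero (mul_ne_zero (ni_ne four_ne_zero) (pow_ne_zero 2 (idS_ne R)))
      (pow_ne_zero 2 hf)
  have hle : qN R * f ^ 2 ≤ ni k 4 * (idS S * f) ^ 2 := by
    have h1 : idS R ≤ idS S := by
      unfold idS
      exact Ideal.dvd_iff_le.1 (Finset.prod_dvd_prod_of_subset _ _ _ hS)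
    have e1 : qN R * f ^ 2 = ni k 4 * (idS R * f) ^ 2 := by
      unfold qN
      ring
    rw [e1]
    exact Ideal.mul_mono_right (Ideal.pow_right_mono (Ideal.mul_mono_left h1) 2)
  have h := cnt_ch hI hle (per_Dis (idS S * f))
  rw [cnt_Dis hg] at h
  have h' : (cnt (qN R * f ^ 2) (Dis (idS S * f)) : ℝ) * nm (ni k 4 * (idS S * f) ^ 2) =
      2 ^ dg k * nm (qN R * f ^ 2) := by
    unfold nm
    exact_mod_cast h
  unfold qN at h' ⊢
  rw [nm_mul, nm_pow, nm_mul, nm_mul, nm_mul, nm_pow, nm_pow, nm_idS, nm_idS] at h'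
  have p4 : (0 : ℝ) < nm (ni k 4) := nm_pos' (ni_ne four_ne_zero)
  have pf : (0 : ℝ) < nm f := nm_pos' hf
  have hne : nm (ni k 4) * nm f ^ 2 ≠ 0 := by positivity
  apply mul_right_cancel₀ hne
  linear_combination h'

theorem cnt_all {f : Ideal (𝓞 k)} (hf : f ≠ ⊥) {R : Finset (PrI k)} (R' : Finset (PrI k)) :
    ∀ S : Finset (PrI k), Disjoint S R' → S ⊆ R → R' ⊆ R →
      (cnt (qN R * f ^ 2) (fun x => Dis (idS S * f) x ∧ ∀ P ∈ R', ¬ Dis (P.1 * f) x) : ℝ) *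
        nS S ^ 2 = 2 ^ dg k * nS R ^ 2 * ∏ P ∈ R', (1 - 1 / np P ^ 2) := by
  classical
  induction R' using Finset.induction_on with
  | empty =>
    intro S _ hS _
    rw [Finset.prod_empty, mul_one, ← cnt_DisS hf hS]
    congr 2
    exact cnt_congr fun x => by simp
  | insert P R' hP ih =>
    intro S hd hS hR
    rw [Finset.disjoint_insert_right] at hd
    obtain ⟨hPS, hd⟩ := hd
    have hR' : R' ⊆ R := (Finset.subset_insert _ _).trans hR
    have hPR : P ∈ R := hR (Finset.mem_insert_self _ _)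
    have i1 := ih S hd hS hR'
    have i2 := ih (insert P S) (Finset.disjoint_insert_left.2 ⟨hP, hd⟩)
      (Finset.insert_subset hPR hS) hR'
    have hsp := cnt_split (qN R * f ^ 2)
      (fun x => Dis (idS S * f) x ∧ ∀ P ∈ R', ¬ Dis (P.1 * f) x) (Dis (P.1 * f))
    have hid : idS (insert P S) = P.1 * idS S := by
      unfold idS
      rw [Finset.prod_insert hPS]
    have c1 : cnt (qN R * f ^ 2)
        (fun x => (Dis (idS S * f) x ∧ ∀ P ∈ R', ¬ Dis (P.1 * f) x) ∧ Dis (P.1 * f) x) =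
        cnt (qN R * f ^ 2)
          (fun x => Dis (idS (insert P S) * f) x ∧ ∀ P ∈ R', ¬ Dis (P.1 * f) x) := by
      refine cnt_congr fun x => ?_
      rw [hid]
      constructor
      · rintro ⟨⟨h1, h2⟩, h3⟩
        exact ⟨Dis_crt hf (cop_idS hPS) h3 h1, h2⟩
      · rintro ⟨h1, h2⟩
        refine ⟨⟨Dis_mono (Ideal.mul_mono_left Ideal.mul_le_right) h1, h2⟩,
          Dis_mono (Ideal.mul_mono_left Ideal.mul_le_left) h1⟩
    have c2 : cnt (qN R * f ^ 2)
        (fun x => (Dis (idS S * f) x ∧ ∀ P ∈ R', ¬ Dis (P.1 * f) x) ∧ ¬ Dis (P.1 * f) x) =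
        cnt (qN R * f ^ 2)
          (fun x => Dis (idS S * f) x ∧ ∀ Q ∈ insert P R', ¬ Dis (Q.1 * f) x) := by
      refine cnt_congr fun x => ?_
      rw [Finset.forall_mem_insert]
      tauto
    rw [c1, c2] at hsp
    have hsp' : (cnt (qN R * f ^ 2)
          (fun x => Dis (idS S * f) x ∧ ∀ Q ∈ insert P R', ¬ Dis (Q.1 * f) x) : ℝ) +
        (cnt (qN R * f ^ 2)
          (fun x => Dis (idS (insert P S) * f) x ∧ ∀ P ∈ R', ¬ Dis (P.1 * f) x) : ℝ) =
        (cnt (qN R * f ^ 2) (fun x => Dis (idS S * f) x ∧ ∀ P ∈ R', ¬ Dis (P.1 * f) x) : ℝ) := by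
      exact_mod_cast hsp
    have hnS : nS (insert P S) = np P * nS S := by
      unfold nS
      rw [Finset.prod_insert hPS]
    rw [hnS] at i2
    rw [Finset.prod_insert hP]
    have hp := np_pos P
    have i3 : (cnt (qN R * f ^ 2)
          (fun x => Dis (idS (insert P S) * f) x ∧ ∀ P ∈ R', ¬ Dis (P.1 * f) x) : ℝ) *
            nS S ^ 2 = 2 ^ dg k * nS R ^ 2 * (∏ P ∈ R', (1 - 1 / np P ^ 2)) / np P ^ 2 := by
      rw [eq_div_iff (by positivity), ← i2]
      ring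
    have e : (cnt (qN R * f ^ 2)
          (fun x => Dis (idS S * f) x ∧ ∀ Q ∈ insert P R', ¬ Dis (Q.1 * f) x) : ℝ) =
        (cnt (qN R * f ^ 2) (fun x => Dis (idS S * f) x ∧ ∀ P ∈ R', ¬ Dis (P.1 * f) x) : ℝ) -
        (cnt (qN R * f ^ 2)
          (fun x => Dis (idS (insert P S) * f) x ∧ ∀ P ∈ R', ¬ Dis (P.1 * f) x) : ℝ) := by
      rw [← hsp']
      ring
    rw [e, sub_mul, i1, i3]
    ring

end

open Classical in
theorem pf_FDN : T_FDN := by
  intro k _ _ f R hf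
  have hq : qN R ≠ ⊥ := by
    unfold qN
    exact mul_ne_zero (ni_ne four_ne_zero) (pow_ne_zero 2 (idS_ne R))
  have hgm : ∀ D, good f R D → D ∈ f ^ 2 := fun D h => Dis_mem h.1
  refine ⟨hq, hgm, ?_, ?_⟩
  · intro D y hy
    have h1 : Per (qN R * f ^ 2) (Dis f) := by
      refine (per_Dis f).mono ?_
      unfold qN
      exact Ideal.mul_mono_left Ideal.mul_le_left
    have h2 : ∀ P ∈ R, Per (qN R * f ^ 2) (Dis (P.1 * f)) := by
      intro P hP
      refine (per_Dis (P.1 * f)).mono ?_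
      have e1 : qN R * f ^ 2 = ni k 4 * (idS R * f) ^ 2 := by
        unfold qN
        ring
      rw [e1]
      exact Ideal.mul_mono_right (Ideal.pow_right_mono (Ideal.mul_mono_left (idS_le hP)) 2)
    have hy' : D + y - D ∈ qN R * f ^ 2 := by
      rw [add_sub_cancel_left]
      exact hy
    unfold good
    exact and_congr (h1 _ _ hy') (forall₂_congr fun P hP => not_congr (h2 P hP _ _ hy'))
  · have h := cnt_all hf (R := R) R ∅ (Finset.disjoint_empty_left R) (Finset.empty_subset R)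
      (Finset.Subset.refl R)
    have e1 : ((Rs (qN R * f ^ 2)).filter (fun x => x ∈ f ^ 2 ∧ good f R x)).card =
        cnt (qN R * f ^ 2) (fun x => Dis (idS (∅ : Finset (PrI k)) * f) x ∧
          ∀ P ∈ R, ¬ Dis (P.1 * f) x) := by
      unfold cnt
      congr 1
      ext x
      rw [Finset.mem_filter, mem_cs]
      have e2 : idS (∅ : Finset (PrI k)) * f = f := by
        unfold idS
        rw [Finset.prod_empty, one_mul]
      rw [e2]
      exact ⟨fun h => ⟨h.1, h.2.2⟩, fun h => ⟨h.1, hgm x h.2, h.2⟩⟩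
    rw [e1]
    have e3 : nS (∅ : Finset (PrI k)) = 1 := by
      unfold nS
      rw [Finset.prod_empty]
    rw [e3, one_pow, mul_one] at h
    rw [h]
    unfold qN dR
    rw [nm_mul, nm_pow, nm_idS]
    have e4 : nm (ni k 4) = 2 ^ dg k * 2 ^ dg k := by
      unfold nm
      rw [absNorm_ni, ← mul_pow]
      norm_num
    rw [e4]
    have h2 : (2 : ℝ) ^ dg k ≠ 0 := by positivity
    field_simp

end Pool.Agent.H57.NV
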