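import Pool.Agent.H95.NV.Targets1
import Pool.Agent.H77.CM4.CNTP

/-!
# (KDX): every CM quadratic extension has the data `(f, D, b, δ)`
-/

set_option autoImplicit false

open NumberField
open scoped nonZeroDivisors

namespace Pool.Agent.H57.NV

open Pool.Agent.H95.NV
open Pool.Agent.H65.CM4 (Pl rv)

theorem exists_conj (k K : Type) [Field k] [NumberField k] [Field K] [NumberField K]
    [Algebra k K] [Algebra.IsQuadraticExtension k K] :
    ∃ σ : K ≃ₐ[k] K, (∀ z, σ (σ z) = z) ∧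
      (∀ z, σ z = z → ∃ x : k, algebraMap k K x = z) ∧
      (∀ z, algebraMap k K (Algebra.norm k z) = z * σ z) ∧
      ∃ d : K, d ≠ 0 ∧ IsIntegral ℤ d ∧ σ d = -d := by
  classical
  have hcard : Fintype.card Gal(K/k) = 2 := by
    rw [← Nat.card_eq_fintype_card, IsGalois.card_aut_eq_finrank k K,
      Algebra.IsQuadraticExtension.finrank_eq_two k K]
  obtain ⟨σ, hσ⟩ := Fintype.exists_ne_of_one_lt_card (by rw [hcard]; norm_num)
    (AlgEquiv.refl : Gal(K/k))
  have huniv : (Finset.univ : Finset Gal(K/k)) = {AlgEquiv.refl, σ} := by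
    symm
    apply Finset.eq_of_subset_of_card_le (Finset.subset_univ _)
    rw [Finset.card_univ, hcard, Finset.card_pair hσ.symm]
  have hall : ∀ τ : Gal(K/k), τ = AlgEquiv.refl ∨ τ = σ := by
    intro τ
    have : τ ∈ (Finset.univ : Finset Gal(K/k)) := Finset.mem_univ _
    rw [huniv] at this
    simpa using this
  have hsq : ∀ z, σ (σ z) = z := by
    intro z
    have h1 : σ ^ 2 = 1 := by
      rw [← hcard]; exact pow_card_eq_one
    have h2 : (σ ^ 2) z = z := by rw [h1]; rfl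
    rw [pow_two] at h2
    exact h2
  have hnorm : ∀ z, algebraMap k K (Algebra.norm k z) = z * σ z := by
    intro z
    have h := Algebra.norm_eq_prod_automorphisms (K := k) (L := K) z
    rw [huniv, Finset.prod_pair hσ.symm] at h
    exact h
  refine ⟨σ, hsq, ?_, hnorm, ?_⟩
  · intro z hz
    have h := (IsGalois.mem_range_algebraMap_iff_fixed (F := k) (E := K) z).2 (by
      intro τ
      rcases hall τ with h | h
      · rw [h]; rfl
      · rw [h]; exact hz)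
    exact h
  · obtain ⟨θ, hθ⟩ : ∃ θ, σ θ ≠ θ := by
      by_contra hcon
      push Not at hcon
      exact hσ (AlgEquiv.ext hcon)
    have halg : IsAlgebraic ℤ (θ - σ θ) :=
      (IsFractionRing.isAlgebraic_iff ℤ ℚ K).2 (Algebra.IsAlgebraic.isAlgebraic (R := ℚ) _)
    obtain ⟨m, hm, hint⟩ := halg.exists_integral_multiple
    refine ⟨m • (θ - σ θ), ?_, hint, ?_⟩
    · rw [Ne, smul_eq_zero, not_or]
      exact ⟨hm, sub_ne_zero.2 (Ne.symm hθ)⟩
    · rw [map_zsmul, map_sub, hsq, ← smul_neg, neg_sub]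

/-- The fractional ideal of the coordinates. -/
theorem exists_frac (k K : Type) [Field k] [NumberField k] [Field K] [NumberField K]
    [Algebra k K] (σ : K ≃ₐ[k] K) (d : K) (hd : d ≠ 0) (hdi : IsIntegral ℤ d)
    (hσd : σ d = -d) (hfix : ∀ z, σ z = z → ∃ x : k, algebraMap k K x = z) :
    ∃ Q : FractionalIdeal (𝓞 k)⁰ k, Q ≠ 0 ∧
      ∀ y : k, y ∈ Q ↔ ∃ t : K, IsIntegral ℤ t ∧ t - σ t = algebraMap k K y * d := by
  have hinj : Function.Injective (algebraMap k K) := (algebraMap k K).injective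
  obtain ⟨e, he⟩ := hfix (d * d) (by rw [map_mul, hσd]; ring)
  have hei : IsIntegral ℤ e := by
    rw [← isIntegral_algebraMap_iff hinj, he]
    exact hdi.mul hdi
  have he0 : e ≠ 0 := by
    intro h
    rw [h, map_zero] at he
    exact hd (mul_self_eq_zero.1 he.symm)
  have hσi : ∀ t : K, IsIntegral ℤ t → IsIntegral ℤ (σ t) := fun t ht =>
    map_isIntegral_int (σ : K →+* K) ht
  let N : Submodule (𝓞 k) k :=
    { carrier := {y | ∃ t : K, IsIntegral ℤ t ∧ t - σ t = algebraMap k K y * d}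
      zero_mem' := ⟨0, isIntegral_zero, by simp⟩
      add_mem' := by
        rintro y y' ⟨t, ht, h⟩ ⟨t', ht', h'⟩
        refine ⟨t + t', ht.add ht', ?_⟩
        rw [map_add, map_add, add_mul, ← h, ← h']
        ring
      smul_mem' := by
        rintro c y ⟨t, ht, h⟩
        refine ⟨algebraMap k K (c : k) * t, ?_, ?_⟩
        · exact ((isIntegral_algebraMap_iff hinj).2 c.isIntegral_coe).mul ht
        · have h1 : c • y = (c : k) * y := rfl
          rw [map_mul, σ.commutes, ← mul_sub, h, h1, map_mul]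
          ring }
  have hN : IsFractional (𝓞 k)⁰ N := by
    refine ⟨⟨e, hei⟩, ?_, ?_⟩
    · rw [mem_nonZeroDivisors_iff_ne_zero]
      intro h
      exact he0 (congrArg (fun x : 𝓞 k => (x : k)) h)
    · rintro y ⟨t, ht, h⟩
      have h1 : IsIntegral ℤ (e * y) := by
        rw [← isIntegral_algebraMap_iff hinj, map_mul, he]
        have : d * d * algebraMap k K y = d * (t - σ t) := by rw [h]; ring
        rw [this]
        exact hdi.mul (ht.sub (hσi t ht))
      exact ⟨⟨e * y, h1⟩, rfl⟩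
  let Q : FractionalIdeal (𝓞 k)⁰ k := ⟨N, hN⟩
  have hQ : ∀ y : k, y ∈ Q ↔ ∃ t : K, IsIntegral ℤ t ∧ t - σ t = algebraMap k K y * d :=
    fun y => Iff.rfl
  refine ⟨Q, ?_, hQ⟩
  intro h
  have h2 : (2 : k) ∈ Q := by
    rw [hQ]
    refine ⟨d, hdi, ?_⟩
    rw [hσd, map_ofNat]
    ring
  rw [h, FractionalIdeal.mem_zero_iff] at h2
  exact two_ne_zero h2

theorem mem_fi_iff {k : Type} [Field k] [NumberField k] (f : Ideal (𝓞 k)) (hf : f ≠ ⊥) (q : k) :
    q ∈ fi f ↔ q ∈ ((f : FractionalIdeal (𝓞 k)⁰ k))⁻¹ := by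
  rw [FractionalIdeal.mem_inv_iff (FractionalIdeal.coeIdeal_ne_zero.2 hf)]
  constructor
  · intro h y hy
    obtain ⟨a, ha, rfl⟩ := (FractionalIdeal.mem_coeIdeal _).1 hy
    obtain ⟨t, ht⟩ := h a ha
    rw [FractionalIdeal.mem_one_iff]
    exact ⟨t, ht⟩
  · intro h a ha
    have h1 := h (algebraMap (𝓞 k) k a) ((FractionalIdeal.mem_coeIdeal _).2 ⟨a, ha, rfl⟩)
    rw [FractionalIdeal.mem_one_iff] at h1
    obtain ⟨t, ht⟩ := h1
    exact ⟨t, ht⟩

/-- Every fractional ideal is `t` times the inverse of a representative. -/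
theorem exists_rep {k : Type} [Field k] [NumberField k] (R : Finset (Ideal (𝓞 k))) (hR : Reps R)
    (Q : FractionalIdeal (𝓞 k)⁰ k) (hQ : Q ≠ 0) :
    ∃ f ∈ R, ∃ t : k, t ≠ 0 ∧ ∀ y : k, y ∈ Q ↔ ∃ q ∈ fi f, y = t * q := by
  obtain ⟨a, I, ha, hI⟩ := FractionalIdeal.exists_eq_spanSingleton_mul Q⁻¹
  have hI0 : I ≠ ⊥ := by
    rintro rfl
    rw [FractionalIdeal.coeIdeal_bot, mul_zero] at hI
    exact hQ (inv_eq_zero.1 hI)
  obtain ⟨f, hf, x, y, hx, hy, hxy⟩ := hR.2.1 I hI0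
  have hf0 : f ≠ ⊥ := hR.1 f hf
  have hx' : (x : k) ≠ 0 := fun h => hx (by ext; exact h)
  have hy' : (y : k) ≠ 0 := fun h => hy (by ext; exact h)
  have ha' : (a : k) ≠ 0 := fun h => ha (by ext; exact h)
  have h1 : FractionalIdeal.spanSingleton (𝓞 k)⁰ (x : k) * (I : FractionalIdeal (𝓞 k)⁰ k) =
      FractionalIdeal.spanSingleton (𝓞 k)⁰ (y : k) * (f : FractionalIdeal (𝓞 k)⁰ k) := by
    have := congrArg (fun J : Ideal (𝓞 k) => (J : FractionalIdeal (𝓞 k)⁰ k)) hxy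
    simp only [FractionalIdeal.coeIdeal_mul, FractionalIdeal.coeIdeal_span_singleton] at this
    exact this
  have h2 : (I : FractionalIdeal (𝓞 k)⁰ k) =
      FractionalIdeal.spanSingleton (𝓞 k)⁰ ((x : k)⁻¹ * (y : k)) *
        (f : FractionalIdeal (𝓞 k)⁰ k) := by
    rw [← FractionalIdeal.spanSingleton_mul_spanSingleton, mul_assoc, ← h1, ← mul_assoc,
      FractionalIdeal.spanSingleton_mul_spanSingleton, inv_mul_cancel₀ hx',
      FractionalIdeal.spanSingleton_one, one_mul]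
  have h3 : Q = FractionalIdeal.spanSingleton (𝓞 k)⁰ ((a : k) * ((x : k) * (y : k)⁻¹)) *
      ((f : FractionalIdeal (𝓞 k)⁰ k))⁻¹ := by
    have h4 : Q = (Q⁻¹)⁻¹ := (inv_inv Q).symm
    have h5 : (algebraMap (𝓞 k) k a)⁻¹ * ((x : k)⁻¹ * (y : k)) =
        ((a : k) * ((x : k) * (y : k)⁻¹))⁻¹ := by
      change (a : k)⁻¹ * ((x : k)⁻¹ * (y : k)) = _
      field_simp
    rw [h4, hI, h2, ← mul_assoc, FractionalIdeal.spanSingleton_mul_spanSingleton, h5, mul_inv,
      ← FractionalIdeal.spanSingleton_inv, inv_inv]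
  refine ⟨f, hf, (a : k) * ((x : k) * (y : k)⁻¹),
    mul_ne_zero ha' (mul_ne_zero hx' (inv_ne_zero hy')), fun z => ?_⟩
  rw [h3, FractionalIdeal.mem_singleton_mul]
  constructor
  · rintro ⟨q, hq, h⟩
    exact ⟨q, (mem_fi_iff f hf0 q).2 hq, h⟩
  · rintro ⟨q, hq, h⟩
    exact ⟨q, (mem_fi_iff f hf0 q).1 hq, h⟩

theorem pf_KDX (_hREP : T_REP) (_hCOO : T_COO) (hFNV : T_FNV) : T_KDX := by
  intro k K _ _ _ _ _ _ _ _ R hR
  obtain ⟨σ, hσσ, hfix, hnorm, d, hd, hdi, hσd⟩ := exists_conj k K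
  have hinj : Function.Injective (algebraMap k K) := (algebraMap k K).injective
  have hσi : ∀ t : K, IsIntegral ℤ t → IsIntegral ℤ (σ t) := fun t ht =>
    map_isIntegral_int (σ : K →+* K) ht
  obtain ⟨Q, hQ, hQm⟩ := exists_frac k K σ d hd hdi hσd hfix
  obtain ⟨f, hfR, t, ht, hft⟩ := exists_rep R hR Q hQ
  have hf0 : f ≠ ⊥ := hR.1 f hfR
  obtain ⟨⟨s, hs, hs1⟩, -, -, -, -, hfnv⟩ := hFNV k f hf0
  set δ : K := algebraMap k K t * d with hδ
  have hδ0 : δ ≠ 0 := mul_ne_zero ((map_ne_zero _).2 ht) hd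
  have hσδ : σ δ = -δ := by rw [hδ, map_mul, σ.commutes, hσd]; ring
  -- the coordinates
  have key : ∀ q : k, q ∈ fi f ↔ ∃ z : K, IsIntegral ℤ z ∧ z - σ z = algebraMap k K q * δ := by
    intro q
    have h1 : t * q ∈ Q ↔ q ∈ fi f := by
      rw [hft]
      constructor
      · rintro ⟨q', hq', h⟩
        rwa [mul_left_cancel₀ ht h]
      · exact fun h => ⟨q, h, rfl⟩
    rw [← h1, hQm]
    refine exists_congr fun z => and_congr_right fun _ => ?_
    rw [hδ, map_mul]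
    constructor
    · intro h; rw [h]; ring
    · intro h; rw [h]; ring
  choose! Z hZi hZ using fun (q : k) (hq : q ∈ fi f) => (key q).1 hq
  set w₀ : K := ∑ x ∈ s, algebraMap k K (x.1 : k) * Z x.2 with hw₀
  have hint_alg : ∀ x : 𝓞 k, IsIntegral ℤ (algebraMap k K (x : k)) := fun x =>
    (isIntegral_algebraMap_iff hinj).2 x.isIntegral_coe
  have hw₀i : IsIntegral ℤ w₀ := IsIntegral.sum _ fun x hx =>
    (hint_alg x.1).mul (hZi x.2 (hs x hx).2)
  have hw₀δ : w₀ - σ w₀ = δ := by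
    rw [hw₀, map_sum, ← Finset.sum_sub_distrib]
    have h1 : ∀ x ∈ s, algebraMap k K (x.1 : k) * Z x.2 - σ (algebraMap k K (x.1 : k) * Z x.2) =
        algebraMap k K ((x.1 : k) * x.2) * δ := by
      intro x hx
      rw [map_mul, σ.commutes, ← mul_sub, hZ x.2 (hs x hx).2, map_mul]
      ring
    rw [Finset.sum_congr rfl h1, ← Finset.sum_mul, ← map_sum, hs1, map_one, one_mul]
  obtain ⟨b, hb⟩ := hfix (w₀ + σ w₀) (by rw [map_add, hσσ]; ring)
  have hbi : IsIntegral ℤ b := by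
    rw [← isIntegral_algebraMap_iff hinj, hb]
    exact hw₀i.add (hσi _ hw₀i)
  obtain ⟨c, hc⟩ := hfix (w₀ * σ w₀) (by rw [map_mul, hσσ]; ring)
  -- `q w₀` is integral
  have hqw : ∀ q ∈ fi f, IsIntegral ℤ (algebraMap k K q * w₀) := by
    intro q hq
    rw [hw₀, Finset.mul_sum]
    refine IsIntegral.sum _ fun x hx => ?_
    obtain ⟨y, hy⟩ := hq x.1 (hs x hx).1
    have : algebraMap k K q * (algebraMap k K (x.1 : k) * Z x.2) =
        algebraMap k K (y : k) * Z x.2 := by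
      rw [hy, map_mul]; ring
    rw [this]
    exact (hint_alg y).mul (hZi x.2 (hs x hx).2)
  have hint_k : ∀ x : k, IsIntegral ℤ (algebraMap k K x) → ∃ y : 𝓞 k, (y : k) = x := fun x hx =>
    ⟨⟨x, (isIntegral_algebraMap_iff hinj).1 hx⟩, rfl⟩
  -- `b ∈ f`
  obtain ⟨b', hb'f, hb'⟩ : ∃ t ∈ (⊤ : Ideal (𝓞 k)) * f, (t : k) = b := by
    refine (hfnv ⊤ b).1 fun q hq => ?_
    obtain ⟨y, hy⟩ := hint_k (q * b) (by
      rw [map_mul, hb, mul_add]
      refine (hqw q hq).add ?_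
      have : algebraMap k K q * σ w₀ = σ (algebraMap k K q * w₀) := by
        rw [map_mul, σ.commutes]
      rw [this]
      exact hσi _ (hqw q hq))
    exact ⟨y, Submodule.mem_top, hy⟩
  rw [Ideal.top_mul] at hb'f
  -- `c ∈ f ^ 2`
  obtain ⟨c', hc'f, hc'⟩ : ∃ t ∈ (⊤ * f) * f, (t : k) = c := by
    refine (hfnv (⊤ * f) c).1 fun q hq => ?_
    refine (hfnv ⊤ (q * c)).1 fun q' hq' => ?_
    obtain ⟨y, hy⟩ := hint_k (q' * (q * c)) (by
      have : algebraMap k K (q' * (q * c)) =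
          (algebraMap k K q' * w₀) * σ (algebraMap k K q * w₀) := by
        rw [map_mul, map_mul, map_mul, hc, σ.commutes]; ring
      rw [this]
      exact (hqw q' hq').mul (hσi _ (hqw q hq)))
    exact ⟨y, Submodule.mem_top, hy⟩
  rw [Ideal.top_mul, ← pow_two] at hc'f
  -- the discriminant
  have h2w : 2 * w₀ = algebraMap k K b + δ := by rw [hb, ← hw₀δ]; ring
  have hsqδ : δ ^ 2 = algebraMap k K (b ^ 2 - 4 * c) := by
    rw [map_sub, map_pow, map_mul, hb, hc, map_ofNat, ← hw₀δ]; ring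
  have hDk : ((4 * c' - b' ^ 2 : 𝓞 k) : k) = 4 * c - b ^ 2 := by
    rw [← hb', ← hc']
    change algebraMap (𝓞 k) k (4 * c' - b' ^ 2) =
      4 * algebraMap (𝓞 k) k c' - (algebraMap (𝓞 k) k b') ^ 2
    rw [map_sub, map_mul, map_pow, map_ofNat]
  have hsq : δ ^ 2 = -algebraMap k K ((4 * c' - b' ^ 2 : 𝓞 k) : k) := by
    rw [hDk, hsqδ, ← map_neg]
    congr 1
    ring
  have hnδ : Algebra.norm k δ = ((4 * c' - b' ^ 2 : 𝓞 k) : k) := by
    apply hinj
    rw [hnorm, hσδ, ← neg_eq_iff_eq_neg.2 hsq]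
    ring
  have hww : w b' δ = w₀ := by
    unfold w
    rw [hb', ← h2w]
    field_simp
  refine ⟨f, hfR, 4 * c' - b' ^ 2, b', δ, ⟨hf0, ?_, hsq, ⟨?_, hb'f, c', ?_, ?_⟩, ?_⟩⟩
  · intro v
    rw [← hnδ]
    exact Pool.Agent.H77.CM4.ntp_pos k K δ hδ0 v
  · exact fun h => by
      have : (1 : 𝓞 k) ∈ (⊥ : Ideal (𝓞 k)) := h ▸ Submodule.mem_top
      rw [Ideal.mem_bot] at this
      exact one_ne_zero this
  · rwa [Ideal.top_mul]
  · ring
  · intro z
    constructor
    · rintro ⟨τ, rfl⟩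
      have hτi : IsIntegral ℤ (τ : K) := τ.isIntegral_coe
      obtain ⟨q₁, hq₁⟩ := hfix (((τ : K) - σ τ) / δ) (by
        rw [map_div₀, map_sub, hσσ, hσδ, div_neg, ← neg_div, neg_sub])
      have hq₁' : (τ : K) - σ τ = algebraMap k K q₁ * δ := by
        rw [hq₁]; field_simp
      have hq₁f : q₁ ∈ fi f := (key q₁).2 ⟨τ, hτi, hq₁'⟩
      obtain ⟨p, hp⟩ := hfix ((τ : K) - algebraMap k K q₁ * w₀) (by
        rw [map_sub, map_mul, σ.commutes]
        have h1 : σ (τ : K) = (τ : K) - algebraMap k K q₁ * δ := by rw [← hq₁']; ring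
        have h2 : σ w₀ = w₀ - δ := by rw [← hw₀δ]; ring
        rw [h1, h2]; ring)
      obtain ⟨p', hp'⟩ := hint_k p (by rw [hp]; exact hτi.sub (hqw q₁ hq₁f))
      refine ⟨p', q₁, hq₁f, ?_⟩
      rw [hp', hp, hww]
      ring
    · rintro ⟨p, q, hq, rfl⟩
      rw [hww]
      exact ⟨⟨_, (hint_alg p).add (hqw q hq)⟩, rfl⟩

end Pool.Agent.H57.NV
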