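import Pool.Agent.H57.NV.RsLib

/-!
# (NSD): the density of the discriminants without split primes
-/

set_option autoImplicit false

open NumberField
open scoped nonZeroDivisors

namespace Pool.Agent.H57.NV

open Pool.Agent.H95.NV (spl T_NSD)
open Pool.Agent.H65.CM4 (nm)
open Pool.Agent.H89.NV (PrI np idS Rs)

open Classical in
/-- the number of the elements which are not nonzero squares -/
theorem sq_count {F : Type} [Field F] [Fintype F] (h2 : ringChar F ≠ 2) :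
    2 * (Finset.univ.filter (fun a : F => ¬ (a ≠ 0 ∧ ∃ s : F, s ^ 2 + a = 0))).card =
      Fintype.card F + 1 := by
  have h1 : (Finset.univ.filter (fun a : F => ¬ (a ≠ 0 ∧ ∃ s : F, s ^ 2 + a = 0))).card =
      (Finset.univ.filter (fun b : F => ¬ (b ≠ 0 ∧ IsSquare b))).card := by
    refine Finset.card_bij (fun a _ => -a) ?_ ?_ ?_
    · intro a ha
      rw [Finset.mem_filter] at ha ⊢
      refine ⟨Finset.mem_univ _, fun h => ha.2 ⟨neg_ne_zero.1 h.1, ?_⟩⟩
      obtain ⟨r, hr⟩ := h.2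
      refine ⟨r, ?_⟩
      rw [pow_two, ← hr, neg_add_cancel]
    · intro a _ b _ h
      exact neg_injective h
    · intro b hb
      rw [Finset.mem_filter] at hb
      refine ⟨-b, ?_, neg_neg b⟩
      rw [Finset.mem_filter]
      refine ⟨Finset.mem_univ _, fun h => hb.2 ⟨neg_ne_zero.1 h.1, ?_⟩⟩
      obtain ⟨r, hr⟩ := h.2
      refine ⟨r, ?_⟩
      rw [← pow_two]
      linear_combination -hr
  rw [h1]
  have h3 : ∀ b : F, (if ¬ (b ≠ 0 ∧ IsSquare b) then 2 else 0 : ℤ) =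
      1 - quadraticChar F b + (if b = 0 then 1 else 0) := by
    intro b
    by_cases hb : b = 0
    · subst hb
      rw [if_pos (by simp), if_pos rfl, MulChar.map_zero]
      norm_num
    · rw [if_neg hb]
      by_cases hs : IsSquare b
      · rw [if_neg (by push Not; exact ⟨hb, hs⟩), (quadraticChar_one_iff_isSquare hb).2 hs]
        norm_num
      · rw [if_pos (fun h => hs h.2), quadraticChar_neg_one_iff_not_isSquare.2 hs]
        norm_num
  have h4 := Finset.sum_congr (rfl : (Finset.univ : Finset F) = Finset.univ) (fun b _ => h3 b)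
  rw [Finset.sum_add_distrib, Finset.sum_sub_distrib, quadraticChar_sum_zero h2,
    Finset.sum_ite_eq' Finset.univ (0 : F), if_pos (Finset.mem_univ _), ← Finset.sum_filter,
    Finset.sum_const, Finset.sum_const, Finset.card_univ] at h4
  simp only [nsmul_eq_mul, mul_one, sub_zero] at h4
  have h5 : ((2 * (Finset.univ.filter (fun b : F => ¬ (b ≠ 0 ∧ IsSquare b))).card : ℕ) : ℤ) =
      ((Fintype.card F + 1 : ℕ) : ℤ) := by
    push_cast
    linarith
  exact_mod_cast h5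

section

variable {k : Type} [Field k] [NumberField k]

theorem exists_gen {f P : Ideal (𝓞 k)} (hf : f ≠ ⊥) (hP : P.IsPrime) (hP0 : P ≠ ⊥) :
    ∃ g ∈ f, f ≤ Ideal.span {g} ⊔ P * f ∧ f ^ 2 ≤ Ideal.span {g ^ 2} ⊔ P * f ^ 2 ∧
      ∀ u, u * g ^ 2 ∈ P * f ^ 2 → u ∈ P := by
  have hmax : P.IsMaximal := hP.isMaximal hP0
  have hPt : P ≠ ⊤ := hP.ne_top
  have hne : ∀ J : Ideal (𝓞 k), J ≠ ⊥ → ¬ J ≤ P * J := by
    intro J hJ h
    have h1 : ⊤ * J = P * J := le_antisymm (by rw [Ideal.top_mul]; exact h)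
      (by rw [Ideal.top_mul]; exact Ideal.mul_le_right)
    exact hPt (mul_right_cancel₀ hJ h1).symm
  have hlt : P * f < f := lt_of_le_not_ge Ideal.mul_le_right (hne f hf)
  obtain ⟨g, hg, hg'⟩ := SetLike.exists_of_lt hlt
  have hle : Ideal.span {g} ⊔ P * f ≤ f :=
    sup_le ((Ideal.span_singleton_le_iff_mem _).2 hg) Ideal.mul_le_right
  obtain ⟨C, hC⟩ := Ideal.dvd_iff_le.2 hle
  have hPC : P ≤ C := by
    have h1 : f * P ≤ f * C := by
      rw [← hC, mul_comm f P]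
      exact le_sup_right
    rw [← Ideal.dvd_iff_le] at h1 ⊢
    exact (mul_dvd_mul_iff_left hf).1 h1
  have hCt : C = ⊤ := by
    by_contra hCt
    have h1 := hmax.eq_of_le hCt hPC
    apply hg'
    have h2 : g ∈ Ideal.span {g} ⊔ P * f := Ideal.mem_sup_left (Ideal.mem_span_singleton_self g)
    rw [hC, ← h1, mul_comm] at h2
    exact h2
  have hf1 : f ≤ Ideal.span {g} ⊔ P * f := by
    rw [hC, hCt, Ideal.mul_top]
  have hgf : Ideal.span {g} ≤ f := (Ideal.span_singleton_le_iff_mem _).2 hg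
  have hf2 : f ^ 2 ≤ Ideal.span {g ^ 2} ⊔ P * f ^ 2 := by
    have e1 : f ^ 2 ≤ Ideal.span {g} * f ⊔ P * f * f := by
      rw [← Ideal.sup_mul, pow_two]
      exact Ideal.mul_mono_left hf1
    have e2 : Ideal.span {g} * f ≤ Ideal.span {g ^ 2} ⊔ P * f ^ 2 := by
      have e3 : Ideal.span {g} * f ≤ Ideal.span {g} * Ideal.span {g} ⊔ Ideal.span {g} * (P * f) := by
        rw [← Ideal.mul_sup]
        exact Ideal.mul_mono_right hf1
      refine e3.trans (sup_le_sup ?_ ?_)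
      · rw [Ideal.span_singleton_mul_span_singleton, ← pow_two]
      · have : P * f ^ 2 = f * (P * f) := by ring
        rw [this]
        exact Ideal.mul_mono_left hgf
    refine e1.trans (sup_le e2 ?_)
    rw [mul_assoc, ← pow_two]
    exact le_sup_right
  refine ⟨g, hg, hf1, hf2, ?_⟩
  intro u hu
  by_contra hup
  have htop : Ideal.span {u} ⊔ P = ⊤ := by
    by_contra hnt
    have h1 := hmax.eq_of_le hnt le_sup_right
    apply hup
    rw [h1]
    exact Ideal.mem_sup_left (Ideal.mem_span_singleton_self u)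
  obtain ⟨a, ha, p, hp, hap⟩ := Submodule.mem_sup.1 ((Ideal.eq_top_iff_one _).1 htop)
  obtain ⟨r, rfl⟩ := Ideal.mem_span_singleton'.1 ha
  have hg2 : g ^ 2 ∈ P * f ^ 2 := by
    have e : g ^ 2 = r * (u * g ^ 2) + p * g ^ 2 := by
      rw [← mul_assoc, ← add_mul, hap, one_mul]
    rw [e]
    exact Ideal.add_mem _ (Ideal.mul_mem_left _ _ hu)
      (Ideal.mul_mem_mul hp (Ideal.pow_mem_pow hg 2))
  refine hne (f ^ 2) (pow_ne_zero 2 hf) (hf2.trans (sup_le ?_ le_rfl))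
  rw [Ideal.span_singleton_le_iff_mem]
  exact hg2

theorem per_spl (f : Ideal (𝓞 k)) (P : PrI k) : Per (P.1 * f ^ 2) (spl f P) := by
  have key : ∀ x y, x - y ∈ P.1 * f ^ 2 → spl f P x → spl f P y := by
    rintro x y h ⟨⟨j, hj, hj2⟩, h3⟩
    refine ⟨⟨j, hj, ?_⟩, fun h4 => h3 ?_⟩
    · have := Ideal.sub_mem _ hj2 h
      have e : j ^ 2 + x - (x - y) = j ^ 2 + y := by ring
      rwa [e] at this
    · have := Ideal.add_mem _ h4 h
      have e : y + (x - y) = x := by ring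
      rwa [e] at this
  intro x y h
  refine ⟨key x y h, key y x ?_⟩
  have := (P.1 * f ^ 2).neg_mem h
  rwa [neg_sub] at this

open Classical in
theorem prime_count {f : Ideal (𝓞 k)} (hf : f ≠ ⊥) (P : PrI k) (h2 : (2 : 𝓞 k) ∉ P.1) :
    2 * cnt (P.1 * f ^ 2) (fun x => x ∈ f ^ 2 ∧ ¬ spl f P x) = Ideal.absNorm P.1 + 1 := by
  obtain ⟨hP, hP0⟩ := P.2
  have hmax : P.1.IsMaximal := hP.isMaximal hP0
  have hI : P.1 * f ^ 2 ≠ ⊥ := mul_ne_zero hP0 (pow_ne_zero 2 hf)
  obtain ⟨g, hg, hf1, hf2, hu⟩ := exists_gen hf hP hP0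
  have hg2 : g ^ 2 ∈ f ^ 2 := Ideal.pow_mem_pow hg 2
  have hle : P.1 * f ^ 2 ≤ f ^ 2 := Ideal.mul_le_right
  -- the condition in terms of the coordinate
  have hspl : ∀ t : 𝓞 k, spl f P (t * g ^ 2) ↔ (t ∉ P.1 ∧ ∃ s : 𝓞 k, s ^ 2 + t ∈ P.1) := by
    intro t
    constructor
    · rintro ⟨⟨j, hj, hj2⟩, h3⟩
      refine ⟨fun ht => h3 (Ideal.mul_mem_mul ht hg2), ?_⟩
      obtain ⟨a, ha, p, hp, hap⟩ := Submodule.mem_sup.1 (hf1 hj)
      obtain ⟨s, rfl⟩ := Ideal.mem_span_singleton'.1 ha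
      refine ⟨s, hu _ ?_⟩
      have hpf : p ∈ f := Ideal.mul_le_right hp
      have h4 : p * (2 * (s * g) + p) ∈ P.1 * f ^ 2 := by
        rw [pow_two, ← mul_assoc]
        refine Ideal.mul_mem_mul hp (f.add_mem ?_ hpf)
        exact f.mul_mem_left _ (f.mul_mem_left _ hg)
      have := Ideal.sub_mem _ hj2 h4
      have e : j ^ 2 + t * g ^ 2 - p * (2 * (s * g) + p) = (s ^ 2 + t) * g ^ 2 := by
        rw [← hap]
        ring
      rwa [e] at this
    · rintro ⟨h3, s, hs⟩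
      refine ⟨⟨s * g, f.mul_mem_left _ hg, ?_⟩, fun h4 => h3 (hu _ h4)⟩
      have e : (s * g) ^ 2 + t * g ^ 2 = (s ^ 2 + t) * g ^ 2 := by ring
      rw [e]
      exact Ideal.mul_mem_mul hs hg2
  -- step B
  have hB : cnt P.1 (fun t => ¬ (t ∉ P.1 ∧ ∃ s : 𝓞 k, s ^ 2 + t ∈ P.1)) =
      cnt (P.1 * f ^ 2) (fun x => x ∈ f ^ 2 ∧ ¬ spl f P x) := by
    unfold cnt
    refine Finset.card_bij (fun t _ => rp (P.1 * f ^ 2) (t * g ^ 2)) ?_ ?_ ?_
    · intro t ht
      rw [mem_cs] at ht ⊢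
      refine ⟨rp_mem hI _, (per_mem' hle _ _ (rp_sub _ _)).2 (Ideal.mul_mem_left _ _ hg2), ?_⟩
      intro h
      exact ht.2 ((hspl t).1 ((per_spl f P _ _ (rp_sub _ _)).1 h))
    · intro t ht t' ht' he
      rw [mem_cs] at ht ht'
      refine Rs_inj hP0 ht.1 ht'.1 (hu _ ?_)
      have h3 := rp_sub (P.1 * f ^ 2) (t * g ^ 2)
      have h4 := rp_sub (P.1 * f ^ 2) (t' * g ^ 2)
      rw [he] at h3
      have := Ideal.sub_mem _ h4 h3
      have e : rp (P.1 * f ^ 2) (t' * g ^ 2) - t' * g ^ 2 -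
        (rp (P.1 * f ^ 2) (t' * g ^ 2) - t * g ^ 2) = (t - t') * g ^ 2 := by ring
      rwa [e] at this
    · intro x hx
      rw [mem_cs] at hx
      obtain ⟨hx1, hx2, hx3⟩ := hx
      obtain ⟨a, ha, p, hp, hap⟩ := Submodule.mem_sup.1 (hf2 hx2)
      obtain ⟨t, rfl⟩ := Ideal.mem_span_singleton'.1 ha
      have h4 : rp P.1 t * g ^ 2 - x ∈ P.1 * f ^ 2 := by
        have h5 := Ideal.mul_mem_mul (rp_sub P.1 t) hg2
        have := Ideal.sub_mem _ h5 hp
        have e : (rp P.1 t - t) * g ^ 2 - p = rp P.1 t * g ^ 2 - x := by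
          rw [← hap]
          ring
        rwa [e] at this
      refine ⟨rp P.1 t, ?_, ?_⟩
      · rw [mem_cs]
        refine ⟨rp_mem hP0 _, fun h => hx3 ?_⟩
        exact (per_spl f P _ _ h4).1 ((hspl _).2 h)
      · rw [rp_eq h4]
        exact (mem_Rs hI x).1 hx1
  rw [← hB]
  -- step A
  let _ : Field (𝓞 k ⧸ P.1) := Ideal.Quotient.field P.1
  have : Finite (𝓞 k ⧸ P.1) := Ideal.finiteQuotientOfFreeOfNeBot P.1 hP0
  let _ : Fintype (𝓞 k ⧸ P.1) := Fintype.ofFinite _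
  have h2' : ringChar (𝓞 k ⧸ P.1) ≠ 2 := by
    intro h
    have h3 : ((2 : ℕ) : 𝓞 k ⧸ P.1) = 0 := by
      rw [ringChar.spec, h]
    apply h2
    rw [← Ideal.Quotient.eq_zero_iff_mem, ← h3, ← map_natCast (Ideal.Quotient.mk P.1) 2,
      Nat.cast_ofNat]
  have hA : cnt P.1 (fun t => ¬ (t ∉ P.1 ∧ ∃ s : 𝓞 k, s ^ 2 + t ∈ P.1)) =
      (Finset.univ.filter (fun a : 𝓞 k ⧸ P.1 => ¬ (a ≠ 0 ∧ ∃ s, s ^ 2 + a = 0))).card := by
    have hm : ∀ t : 𝓞 k, (t ∉ P.1 ∧ ∃ s : 𝓞 k, s ^ 2 + t ∈ P.1) ↔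
        (Ideal.Quotient.mk P.1 t ≠ 0 ∧ ∃ s, s ^ 2 + Ideal.Quotient.mk P.1 t = 0) := by
      intro t
      rw [Ne, Ideal.Quotient.eq_zero_iff_mem]
      refine and_congr Iff.rfl ?_
      constructor
      · rintro ⟨s, hs⟩
        refine ⟨Ideal.Quotient.mk P.1 s, ?_⟩
        rw [← map_pow, ← map_add, Ideal.Quotient.eq_zero_iff_mem]
        exact hs
      · rintro ⟨s, hs⟩
        obtain ⟨s, rfl⟩ := Ideal.Quotient.mk_surjective s
        refine ⟨s, ?_⟩
        rw [← map_pow, ← map_add, Ideal.Quotient.eq_zero_iff_mem] at hs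
        exact hs
    unfold cnt
    refine Finset.card_bij (fun t _ => Ideal.Quotient.mk P.1 t) ?_ ?_ ?_
    · intro t ht
      rw [mem_cs] at ht
      rw [Finset.mem_filter]
      exact ⟨Finset.mem_univ _, fun h => ht.2 ((hm t).2 h)⟩
    · intro t ht t' ht' he
      rw [mem_cs] at ht ht'
      exact Rs_inj hP0 ht.1 ht'.1 (Ideal.Quotient.eq.1 he)
    · intro a ha
      rw [Finset.mem_filter] at ha
      obtain ⟨t, rfl⟩ := Ideal.Quotient.mk_surjective a
      refine ⟨rp P.1 t, ?_, rp_mk P.1 t⟩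
      rw [mem_cs]
      refine ⟨rp_mem hP0 _, fun h => ha.2 ?_⟩
      rw [hm, rp_mk] at h
      exact h
  rw [hA, sq_count h2', ← Nat.card_eq_fintype_card, Ideal.absNorm_apply, Submodule.cardQuot_apply]

theorem idS_ne (S : Finset (PrI k)) : idS S ≠ ⊥ := by
  unfold idS
  exact Finset.prod_ne_zero_iff.2 fun P _ => P.2.2

theorem cop_idS {P : PrI k} {S : Finset (PrI k)} (h : P ∉ S) : P.1 ⊔ idS S = ⊤ := by
  unfold idS
  have hmax : ∀ Q : PrI k, Q.1.IsMaximal := fun Q => Q.2.1.isMaximal Q.2.2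
  refine Ideal.sup_prod_eq_top ?_
  intro Q hQ
  have hne : P.1 ≠ Q.1 := fun h' => h (by rw [Subtype.ext h']; exact hQ)
  exact (hmax P).coprime_of_ne (hmax Q) hne

theorem idS_le {P : PrI k} {S : Finset (PrI k)} (h : P ∈ S) : idS S ≤ P.1 := by
  unfold idS
  exact Ideal.dvd_iff_le.1 (Finset.dvd_prod_of_mem (fun Q : PrI k => Q.1) h)

end

open Classical in
theorem pf_NSD : T_NSD := by
  intro k _ _ f Q hf h2
  have hper : ∀ S : Finset (PrI k), ∀ P ∈ S, Per (idS S * f ^ 2) (spl f P) := fun S P hP =>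
    (per_spl f P).mono (Ideal.mul_mono_left (idS_le hP))
  refine ⟨fun P hP D y hy => hper Q P hP _ _ (by rw [add_sub_cancel_left]; exact hy), ?_⟩
  have key : ∀ S : Finset (PrI k), (∀ P ∈ S, (2 : 𝓞 k) ∉ P.1) →
      ((cnt (idS S * f ^ 2) (fun x => x ∈ f ^ 2 ∧ ∀ P ∈ S, ¬ spl f P x) : ℕ) : ℝ) =
        ∏ P ∈ S, ((np P + 1) / 2) := by
    intro S
    induction S using Finset.induction_on with
    | empty =>
      intro _
      have h1 : cnt (idS (∅ : Finset (PrI k)) * f ^ 2)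
          (fun x => x ∈ f ^ 2 ∧ ∀ P ∈ (∅ : Finset (PrI k)), ¬ spl f P x) =
          cnt (f ^ 2) (fun x => x ∈ f ^ 2) := by
        have e : idS (∅ : Finset (PrI k)) * f ^ 2 = f ^ 2 := by
          unfold idS
          rw [Finset.prod_empty, one_mul]
        rw [e]
        exact cnt_congr fun x => by simp
      rw [h1, Finset.prod_empty]
      have h3 := cnt_mem (pow_ne_zero 2 hf : f ^ 2 ≠ ⊥) (le_refl (f ^ 2))
      have h4 : Ideal.absNorm (f ^ 2) ≠ 0 := by
        rw [Ne, Ideal.absNorm_eq_zero_iff]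
        exact pow_ne_zero 2 hf
      have h5 : cnt (f ^ 2) (fun x => x ∈ f ^ 2) = 1 :=
        Nat.eq_of_mul_eq_mul_right (Nat.pos_of_ne_zero h4) (by rw [h3, one_mul])
      rw [h5]
      norm_num
    | insert P S hPS ih =>
      intro hS
      have ih' := ih fun R hR => hS R (Finset.mem_insert_of_mem hR)
      have hid : idS (insert P S) = P.1 * idS S := by
        unfold idS
        rw [Finset.prod_insert hPS]
      have hc := cnt_crt (pow_ne_zero 2 hf : f ^ 2 ≠ ⊥) P.2.2 (idS_ne S) (cop_idS hPS)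
        (p := fun x => ¬ spl f P x) (q := fun x => ∀ R ∈ S, ¬ spl f R x) (per_spl f P).not
        (by
          intro x y hxy
          exact forall₂_congr fun R hR => not_congr (hper S R hR x y hxy))
      have h1 : cnt (idS (insert P S) * f ^ 2)
          (fun x => x ∈ f ^ 2 ∧ ∀ R ∈ insert P S, ¬ spl f R x) =
          cnt (P.1 * idS S * f ^ 2) (fun x => x ∈ f ^ 2 ∧ ¬ spl f P x ∧ ∀ R ∈ S, ¬ spl f R x) := by
        rw [hid]
        exact cnt_congr fun x => by rw [Finset.forall_mem_insert]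
      rw [h1, hc, Finset.prod_insert hPS, Nat.cast_mul, ih']
      have h3 := prime_count hf P (hS P (Finset.mem_insert_self _ _))
      have h4 : (2 : ℝ) * (cnt (P.1 * f ^ 2) (fun x => x ∈ f ^ 2 ∧ ¬ spl f P x) : ℕ) =
          np P + 1 := by
        unfold np nm
        exact_mod_cast h3
      have h5 : ((cnt (P.1 * f ^ 2) (fun x => x ∈ f ^ 2 ∧ ¬ spl f P x) : ℕ) : ℝ) =
          (np P + 1) / 2 := by linarith
      rw [h5]
  rw [← key Q h2]
  unfold cnt
  congr 2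
  ext x
  rw [Finset.mem_filter, mem_cs]

end Pool.Agent.H57.NV
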