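import Pool.Agent.H95.NV.Targets4
import Pool.Agent.H57.NV.FDN

/-!
# (NSE): the density of the discriminants without pairs of primes of different splitting
-/

set_option autoImplicit false

open NumberField
open scoped nonZeroDivisors

namespace Pool.Agent.H57.NV

open Pool.Agent.H95.NV (spl evt Prs T_NSE)
open Pool.Agent.H65.CM4 (nm)
open Pool.Agent.H89.NV (PrI np idS Rs)

section

variable {k : Type} [Field k] [NumberField k]

/-- the modulus of the pairs -/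
noncomputable def qp (S : Finset (PrI k × PrI k)) : Ideal (𝓞 k) := ∏ P ∈ S, (P.1.1 * P.2.1)

theorem qp_ne (S : Finset (PrI k × PrI k)) : qp S ≠ ⊥ := by
  unfold qp
  exact Finset.prod_ne_zero_iff.2 fun P _ => mul_ne_zero P.1.2.2 P.2.2.2

theorem odd_norm (P : PrI k) (h2 : (2 : 𝓞 k) ∉ P.1) : 3 ≤ Ideal.absNorm P.1 := by
  have h := prime_count (f := ⊤) top_ne_bot P h2
  have h1 : Ideal.absNorm P.1 ≠ 1 := by
    rw [Ne, Ideal.absNorm_eq_one_iff]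
    exact P.2.1.ne_top
  have h0 : Ideal.absNorm P.1 ≠ 0 := by
    rw [Ne, Ideal.absNorm_eq_zero_iff]
    exact P.2.2
  omega

theorem cnt_sq {f I : Ideal (𝓞 k)} (hf : f ≠ ⊥) (hI : I ≠ ⊥) :
    cnt (I * f ^ 2) (fun x => x ∈ f ^ 2) = Ideal.absNorm I := by
  have h := cnt_mem (mul_ne_zero hI (pow_ne_zero 2 hf) : I * f ^ 2 ≠ ⊥)
    (Ideal.mul_le_right : I * f ^ 2 ≤ f ^ 2)
  rw [map_mul] at h
  have h3 : Ideal.absNorm (f ^ 2) ≠ 0 := by
    rw [Ne, Ideal.absNorm_eq_zero_iff]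
    exact pow_ne_zero 2 hf
  exact Nat.eq_of_mul_eq_mul_right (Nat.pos_of_ne_zero h3) h

/-- the number of the classes with `P` split -/
theorem cnt_spl {f : Ideal (𝓞 k)} (hf : f ≠ ⊥) (P : PrI k) (h2 : (2 : 𝓞 k) ∉ P.1) :
    2 * cnt (P.1 * f ^ 2) (fun x => x ∈ f ^ 2 ∧ spl f P x) + 1 = Ideal.absNorm P.1 := by
  have h := prime_count hf P h2
  have h1 := cnt_split (P.1 * f ^ 2) (fun x => x ∈ f ^ 2) (spl f P)
  rw [cnt_sq hf P.2.2] at h1
  omega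

/-- the number of the classes with `P` inert -/
theorem cnt_inert {f : Ideal (𝓞 k)} (hf : f ≠ ⊥) (P : PrI k) (h2 : (2 : 𝓞 k) ∉ P.1) :
    2 * cnt (P.1 * f ^ 2) (fun x => x ∈ f ^ 2 ∧ (¬ spl f P x ∧ x ∉ P.1 * f ^ 2)) + 1 =
      Ideal.absNorm P.1 := by
  have h := prime_count hf P h2
  have h1 := cnt_split (P.1 * f ^ 2) (fun x => x ∈ f ^ 2 ∧ ¬ spl f P x)
    (fun x => x ∈ P.1 * f ^ 2)
  have hI : P.1 * f ^ 2 ≠ ⊥ := mul_ne_zero P.2.2 (pow_ne_zero 2 hf)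
  have h3 : cnt (P.1 * f ^ 2) (fun x => (x ∈ f ^ 2 ∧ ¬ spl f P x) ∧ x ∈ P.1 * f ^ 2) = 1 := by
    have e : cnt (P.1 * f ^ 2) (fun x => (x ∈ f ^ 2 ∧ ¬ spl f P x) ∧ x ∈ P.1 * f ^ 2) =
        cnt (P.1 * f ^ 2) (fun x => x ∈ P.1 * f ^ 2) :=
      cnt_congr fun x => ⟨fun h => h.2, fun h => ⟨⟨Ideal.mul_le_right h, fun hs => hs.2 h⟩, h⟩⟩
    rw [e]
    have h4 := cnt_mem hI (le_refl (P.1 * f ^ 2))
    have h5 : Ideal.absNorm (P.1 * f ^ 2) ≠ 0 := by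
      rw [Ne, Ideal.absNorm_eq_zero_iff]
      exact hI
    exact Nat.eq_of_mul_eq_mul_right (Nat.pos_of_ne_zero h5) (by rw [h4, one_mul])
  have h6 : cnt (P.1 * f ^ 2) (fun x => (x ∈ f ^ 2 ∧ ¬ spl f P x) ∧ ¬ x ∈ P.1 * f ^ 2) =
      cnt (P.1 * f ^ 2) (fun x => x ∈ f ^ 2 ∧ (¬ spl f P x ∧ x ∉ P.1 * f ^ 2)) :=
    cnt_congr fun x => and_assoc
  rw [h3, h6] at h1
  omega

theorem per_evt (f : Ideal (𝓞 k)) (P : PrI k × PrI k) :
    Per (P.1.1 * P.2.1 * f ^ 2) (evt f P) := by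
  have l1 : P.1.1 * P.2.1 * f ^ 2 ≤ P.1.1 * f ^ 2 := Ideal.mul_mono_left Ideal.mul_le_left
  have l2 : P.1.1 * P.2.1 * f ^ 2 ≤ P.2.1 * f ^ 2 := Ideal.mul_mono_left Ideal.mul_le_right
  have h1 := (per_spl f P.1).mono l1
  have h2 := ((per_spl f P.2).mono l2).not
  have h3 := ((per_mem (P.2.1 * f ^ 2)).mono l2).not
  intro x y h
  unfold evt
  exact and_congr (h1 x y h) (and_congr (h2 x y h) (h3 x y h))

theorem cnt_evt {f : Ideal (𝓞 k)} (hf : f ≠ ⊥) (P : PrI k × PrI k) (hne : P.1 ≠ P.2)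
    (h1 : (2 : 𝓞 k) ∉ P.1.1) (h2 : (2 : 𝓞 k) ∉ P.2.1) :
    (cnt (P.1.1 * P.2.1 * f ^ 2) (fun x => x ∈ f ^ 2 ∧ ¬ evt f P x) : ℝ) ≤
      8 / 9 * nm (P.1.1 * P.2.1) := by
  have hcop : P.1.1 ⊔ P.2.1 = ⊤ :=
    (P.1.2.1.isMaximal P.1.2.2).coprime_of_ne (P.2.2.1.isMaximal P.2.2.2)
      (fun h => hne (Subtype.ext h))
  have hc := cnt_crt (pow_ne_zero 2 hf : f ^ 2 ≠ ⊥) P.1.2.2 P.2.2.2 hcop
    (p := spl f P.1) (q := fun x => ¬ spl f P.2 x ∧ x ∉ P.2.1 * f ^ 2) (per_spl f P.1)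
    ((per_spl f P.2).not.and (per_mem (P.2.1 * f ^ 2)).not)
  have hs := cnt_split (P.1.1 * P.2.1 * f ^ 2) (fun x => x ∈ f ^ 2) (evt f P)
  rw [cnt_sq hf (mul_ne_zero P.1.2.2 P.2.2.2 : P.1.1 * P.2.1 ≠ ⊥)] at hs
  have he : cnt (P.1.1 * P.2.1 * f ^ 2) (fun x => x ∈ f ^ 2 ∧ evt f P x) =
      cnt (P.1.1 * P.2.1 * f ^ 2)
        (fun x => x ∈ f ^ 2 ∧ spl f P.1 x ∧ ¬ spl f P.2 x ∧ x ∉ P.2.1 * f ^ 2) :=
    cnt_congr fun x => Iff.rfl
  rw [he, hc, map_mul] at hs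
  have e1 := cnt_spl hf P.1 h1
  have e2 := cnt_inert hf P.2 h2
  have b1 := odd_norm P.1 h1
  have b2 := odd_norm P.2 h2
  set A := cnt (P.1.1 * f ^ 2) (fun x => x ∈ f ^ 2 ∧ spl f P.1 x)
  set B := cnt (P.2.1 * f ^ 2) (fun x => x ∈ f ^ 2 ∧ ¬ spl f P.2 x ∧ x ∉ P.2.1 * f ^ 2)
  set N := cnt (P.1.1 * P.2.1 * f ^ 2) (fun x => x ∈ f ^ 2 ∧ ¬ evt f P x)
  unfold nm
  rw [map_mul, ← e1, ← e2]
  rw [← e1, ← e2] at hs
  have hA : (1 : ℝ) ≤ A := by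
    have : 1 ≤ A := by omega
    exact_mod_cast this
  have hB : (1 : ℝ) ≤ B := by
    have : 1 ≤ B := by omega
    exact_mod_cast this
  have hs' : (N : ℝ) + A * B = (2 * A + 1) * (2 * B + 1) := by exact_mod_cast hs
  push_cast
  nlinarith [mul_le_mul hA hB zero_le_one (zero_le_one.trans hA)]

end

open Classical in
theorem pf_NSE : T_NSE := by
  intro k _ _ f Q hf hQ
  have hle : ∀ (S : Finset (PrI k × PrI k)), ∀ P ∈ S, qp S ≤ P.1.1 * P.2.1 := fun S P hP =>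
    Ideal.dvd_iff_le.1 (Finset.dvd_prod_of_mem (fun P : PrI k × PrI k => P.1.1 * P.2.1) hP)
  have hper : ∀ S : Finset (PrI k × PrI k), ∀ P ∈ S, Per (qp S * f ^ 2) (evt f P) :=
    fun S P hP => (per_evt f P).mono (Ideal.mul_mono_left (hle S P hP))
  refine ⟨qp Q, qp_ne Q, fun P hP D y hy =>
    hper Q P hP _ _ (by rw [add_sub_cancel_left]; exact hy), ?_⟩
  have key : ∀ S : Finset (PrI k × PrI k), S ⊆ Q →
      ((cnt (qp S * f ^ 2) (fun x => x ∈ f ^ 2 ∧ ∀ P ∈ S, ¬ evt f P x) : ℕ) : ℝ) ≤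
        (8 / 9) ^ S.card * nm (qp S) := by
    intro S
    induction S using Finset.induction_on with
    | empty =>
      intro _
      have h1 : cnt (qp (∅ : Finset (PrI k × PrI k)) * f ^ 2)
          (fun x => x ∈ f ^ 2 ∧ ∀ P ∈ (∅ : Finset (PrI k × PrI k)), ¬ evt f P x) =
          cnt (qp (∅ : Finset (PrI k × PrI k)) * f ^ 2) (fun x => x ∈ f ^ 2) :=
        cnt_congr fun x => by simp
      rw [h1, cnt_sq hf (qp_ne _), Finset.card_empty, pow_zero, one_mul]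
      exact le_refl _
    | insert P S hPS ih =>
      intro hS
      have hPQ : P ∈ Q := hS (Finset.mem_insert_self _ _)
      have hSQ : S ⊆ Q := (Finset.subset_insert _ _).trans hS
      have ih' := ih hSQ
      have hid : qp (insert P S) = P.1.1 * P.2.1 * qp S := by
        unfold qp
        rw [Finset.prod_insert hPS]
      have hmax : ∀ R : PrI k, R.1.IsMaximal := fun R => R.2.1.isMaximal R.2.2
      have hcp : ∀ R R' : PrI k, R ≠ R' → R.1 ⊔ R'.1 = ⊤ := fun R R' h =>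
        (hmax R).coprime_of_ne (hmax R') (fun h' => h (Subtype.ext h'))
      have hcop : P.1.1 * P.2.1 ⊔ qp S = ⊤ := by
        unfold qp
        refine Ideal.sup_prod_eq_top ?_
        intro R hR
        have hne : P ≠ R := fun h => hPS (h ▸ hR)
        obtain ⟨d1, d2, d3, d4⟩ := hQ.2 P hPQ R (hSQ hR) hne
        have a1 : P.1.1 ⊔ R.1.1 * R.2.1 = ⊤ :=
          (Ideal.sup_mul_eq_of_coprime_left (hcp _ _ d1)).trans (hcp _ _ d2)
        have a2 : P.2.1 ⊔ R.1.1 * R.2.1 = ⊤ :=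
          (Ideal.sup_mul_eq_of_coprime_left (hcp _ _ d3)).trans (hcp _ _ d4)
        rw [sup_comm] at a1 a2 ⊢
        exact (Ideal.sup_mul_eq_of_coprime_left a1).trans a2
      have hPne : P.1.1 * P.2.1 ≠ ⊥ := mul_ne_zero P.1.2.2 P.2.2.2
      have hc := cnt_crt (pow_ne_zero 2 hf : f ^ 2 ≠ ⊥) hPne (qp_ne S) hcop
        (p := fun x => ¬ evt f P x) (q := fun x => ∀ R ∈ S, ¬ evt f R x) (per_evt f P).not
        (by
          intro x y hxy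
          exact forall₂_congr fun R hR => not_congr (hper S R hR x y hxy))
      have h1 : cnt (qp (insert P S) * f ^ 2)
          (fun x => x ∈ f ^ 2 ∧ ∀ R ∈ insert P S, ¬ evt f R x) =
          cnt (P.1.1 * P.2.1 * qp S * f ^ 2)
            (fun x => x ∈ f ^ 2 ∧ ¬ evt f P x ∧ ∀ R ∈ S, ¬ evt f R x) := by
        rw [hid]
        exact cnt_congr fun x => by rw [Finset.forall_mem_insert]
      obtain ⟨q1, q2, q3⟩ := hQ.1 P hPQ
      have h3 := cnt_evt hf P q1 q2 q3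
      rw [h1, hc, Nat.cast_mul, Finset.card_insert_of_notMem hPS, hid, nm_mul (P.1.1 * P.2.1)]
      have h4 : (0 : ℝ) ≤ (cnt (qp S * f ^ 2) (fun x => x ∈ f ^ 2 ∧ ∀ P ∈ S, ¬ evt f P x) : ℕ) :=
        Nat.cast_nonneg _
      have h5 : (0 : ℝ) ≤ 8 / 9 * nm (P.1.1 * P.2.1) := by
        have := (nm_pos' hPne).le
        positivity
      refine (mul_le_mul h3 ih' h4 h5).trans (le_of_eq ?_)
      rw [pow_succ]
      ring
  have h3 := key Q (Finset.Subset.refl Q)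
  refine le_trans (le_of_eq ?_) h3
  unfold cnt
  congr 2
  ext x
  rw [Finset.mem_filter, mem_cs]

end Pool.Agent.H57.NV
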