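import Pool.Agent.H95.NV.Targets3

/-!
# Systems of representatives modulo an ideal, counting
-/

set_option autoImplicit false

open NumberField
open scoped nonZeroDivisors

namespace Pool.Agent.H57.NV

open Pool.Agent.H89.NV (Rs)

section Lib

variable {k : Type} [Field k] [NumberField k]

/-- the representative -/
noncomputable def rp (I : Ideal (𝓞 k)) (x : 𝓞 k) : 𝓞 k :=
  Function.surjInv (Ideal.Quotient.mk_surjective (I := I)) (Ideal.Quotient.mk I x)

theorem rp_mk (I : Ideal (𝓞 k)) (x : 𝓞 k) :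
    Ideal.Quotient.mk I (rp I x) = Ideal.Quotient.mk I x :=
  Function.surjInv_eq _ _

theorem rp_sub (I : Ideal (𝓞 k)) (x : 𝓞 k) : rp I x - x ∈ I :=
  Ideal.Quotient.eq.1 (rp_mk I x)

theorem rp_eq {I : Ideal (𝓞 k)} {x y : 𝓞 k} (h : x - y ∈ I) : rp I x = rp I y := by
  unfold rp
  rw [Ideal.Quotient.eq.2 h]

theorem rs_fin {I : Ideal (𝓞 k)} (hI : I ≠ ⊥) :
    (Set.range (Function.surjInv (Ideal.Quotient.mk_surjective (I := I)))).Finite := by
  have : Finite (𝓞 k ⧸ I) := Ideal.finiteQuotientOfFreeOfNeBot I hI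
  exact Set.finite_range _

theorem mem_Rs {I : Ideal (𝓞 k)} (hI : I ≠ ⊥) (x : 𝓞 k) : x ∈ Rs I ↔ rp I x = x := by
  unfold Rs
  rw [dif_pos (rs_fin hI), Set.Finite.mem_toFinset, Set.mem_range]
  constructor
  · rintro ⟨q, rfl⟩
    unfold rp
    rw [Function.surjInv_eq (Ideal.Quotient.mk_surjective (I := I)) q]
  · intro h
    exact ⟨_, h⟩

theorem rp_mem {I : Ideal (𝓞 k)} (hI : I ≠ ⊥) (x : 𝓞 k) : rp I x ∈ Rs I := by
  rw [mem_Rs hI]
  exact rp_eq (rp_sub I x)

theorem Rs_inj {I : Ideal (𝓞 k)} (hI : I ≠ ⊥) {x y : 𝓞 k} (hx : x ∈ Rs I) (hy : y ∈ Rs I)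
    (h : x - y ∈ I) : x = y := by
  rw [mem_Rs hI] at hx hy
  rw [← hx, ← hy]
  exact rp_eq h

open Classical in
theorem card_Rs {I : Ideal (𝓞 k)} (hI : I ≠ ⊥) : (Rs I).card = Ideal.absNorm I := by
  have : Finite (𝓞 k ⧸ I) := Ideal.finiteQuotientOfFreeOfNeBot I hI
  have : Fintype (𝓞 k ⧸ I) := Fintype.ofFinite _
  rw [Ideal.absNorm_apply, Submodule.cardQuot_apply, Nat.card_eq_fintype_card,
    ← Finset.card_univ]
  symm
  refine Finset.card_bij (fun q _ => Function.surjInv (Ideal.Quotient.mk_surjective (I := I)) q)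
    ?_ ?_ ?_
  · intro q _
    unfold Rs
    rw [dif_pos (rs_fin hI), Set.Finite.mem_toFinset]
    exact ⟨q, rfl⟩
  · intro q _ q' _ h
    exact Function.injective_surjInv _ h
  · intro x hx
    unfold Rs at hx
    rw [dif_pos (rs_fin hI), Set.Finite.mem_toFinset] at hx
    obtain ⟨q, hq⟩ := hx
    exact ⟨q, Finset.mem_univ _, hq⟩

open Classical in
/-- the representatives with the property `p` -/
noncomputable def cs (I : Ideal (𝓞 k)) (p : 𝓞 k → Prop) : Finset (𝓞 k) := (Rs I).filter p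

open Classical in
theorem mem_cs {I : Ideal (𝓞 k)} {p : 𝓞 k → Prop} {x : 𝓞 k} : x ∈ cs I p ↔ x ∈ Rs I ∧ p x :=
  Finset.mem_filter

/-- the number of classes -/
noncomputable def cnt (I : Ideal (𝓞 k)) (p : 𝓞 k → Prop) : ℕ := (cs I p).card

/-- periodic -/
def Per (I : Ideal (𝓞 k)) (p : 𝓞 k → Prop) : Prop := ∀ x y, x - y ∈ I → (p x ↔ p y)

theorem Per.mono {I J : Ideal (𝓞 k)} (h : I ≤ J) {p : 𝓞 k → Prop} (hp : Per J p) : Per I p :=
  fun x y hxy => hp x y (h hxy)

theorem Per.and {I : Ideal (𝓞 k)} {p q : 𝓞 k → Prop} (hp : Per I p) (hq : Per I q) :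
    Per I (fun x => p x ∧ q x) :=
  fun x y hxy => and_congr (hp x y hxy) (hq x y hxy)

theorem Per.not {I : Ideal (𝓞 k)} {p : 𝓞 k → Prop} (hp : Per I p) : Per I (fun x => ¬ p x) :=
  fun x y hxy => not_congr (hp x y hxy)

theorem per_mem (I : Ideal (𝓞 k)) : Per I (fun x => x ∈ I) := by
  intro x y h
  constructor
  · intro hx
    have := I.sub_mem hx h
    simpa using this
  · intro hy
    have := I.add_mem h hy
    simpa using this

theorem per_mem' {I J : Ideal (𝓞 k)} (h : I ≤ J) : Per I (fun x => x ∈ J) :=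
  (per_mem J).mono h

open Classical in
theorem cnt_congr {I : Ideal (𝓞 k)} {p q : 𝓞 k → Prop} (h : ∀ x, p x ↔ q x) :
    cnt I p = cnt I q := by
  have : p = q := funext fun x => propext (h x)
  rw [this]

open Classical in
theorem cnt_true {I : Ideal (𝓞 k)} (hI : I ≠ ⊥) : cnt I (fun _ => True) = Ideal.absNorm I := by
  unfold cnt cs
  rw [Finset.filter_true, card_Rs hI]

open Classical in
/-- change of the modulus, first form -/
theorem cnt_fib {I J : Ideal (𝓞 k)} (hI : I ≠ ⊥) (h : I ≤ J) {p : 𝓞 k → Prop} (hp : Per J p) :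
    cnt I p = cnt I (fun x => x ∈ J) * cnt J p := by
  have hJ : J ≠ ⊥ := by
    rintro rfl
    exact hI (le_bot_iff.1 h)
  unfold cnt cs
  have h1 := Finset.card_eq_sum_card_fiberwise (s := (Rs I).filter p) (t := (Rs J).filter p)
    (f := rp J) (by
      intro x hx
      have hx' : x ∈ (Rs I).filter p := hx
      rw [Finset.mem_filter] at hx'
      have : rp J x ∈ (Rs J).filter p := by
        rw [Finset.mem_filter]
        exact ⟨rp_mem hJ x, (hp _ _ (rp_sub J x)).2 hx'.2⟩
      exact this)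
  rw [h1]
  have h2 : ∀ y ∈ (Rs J).filter p, (((Rs I).filter p).filter (fun x => rp J x = y)).card =
      ((Rs I).filter (fun x => x ∈ J)).card := by
    intro y hy
    rw [Finset.mem_filter] at hy
    refine Finset.card_bij (fun x _ => rp I (x - y)) ?_ ?_ ?_
    · intro x hx
      rw [Finset.mem_filter, Finset.mem_filter] at hx
      rw [Finset.mem_filter]
      refine ⟨rp_mem hI _, ?_⟩
      have h3 : x - y ∈ J := by
        have := rp_sub J x
        rw [hx.2] at this
        have h4 := J.neg_mem this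
        simpa using h4
      exact (per_mem' h _ _ (rp_sub I (x - y))).2 h3
    · intro x hx x' hx' he
      rw [Finset.mem_filter, Finset.mem_filter] at hx hx'
      refine Rs_inj hI hx.1.1 hx'.1.1 ?_
      have h3 := rp_sub I (x - y)
      have h4 := rp_sub I (x' - y)
      rw [he] at h3
      have := I.sub_mem h4 h3
      have e : rp I (x' - y) - (x' - y) - (rp I (x' - y) - (x - y)) = x - x' := by ring
      rw [e] at this
      exact this
    · intro z hz
      rw [Finset.mem_filter] at hz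
      have h3 : rp I (z + y) - (z + y) ∈ I := rp_sub I _
      have h4 : rp I (z + y) - y ∈ J := by
        have := J.add_mem (h h3) hz.2
        have e : rp I (z + y) - (z + y) + z = rp I (z + y) - y := by ring
        rwa [e] at this
      refine ⟨rp I (z + y), ?_, ?_⟩
      · rw [Finset.mem_filter, Finset.mem_filter]
        refine ⟨⟨rp_mem hI _, (hp _ _ h4).2 hy.2⟩, ?_⟩
        rw [rp_eq h4]
        exact (mem_Rs hJ y).1 hy.1
      · have e : rp I (rp I (z + y) - y) = rp I z := by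
          apply rp_eq
          have e : rp I (z + y) - y - z = rp I (z + y) - (z + y) := by ring
          rw [e]
          exact h3
        rw [e]
        exact (mem_Rs hI z).1 hz.1
  rw [Finset.sum_congr rfl h2, Finset.sum_const, smul_eq_mul, mul_comm]

theorem cnt_mem {I J : Ideal (𝓞 k)} (hI : I ≠ ⊥) (h : I ≤ J) :
    cnt I (fun x => x ∈ J) * Ideal.absNorm J = Ideal.absNorm I := by
  have hJ : J ≠ ⊥ := by
    rintro rfl
    exact hI (le_bot_iff.1 h)
  have h1 := cnt_fib hI h (p := fun _ => True) (fun _ _ _ => Iff.rfl)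
  rw [cnt_true hI, cnt_true hJ] at h1
  exact h1.symm

theorem cnt_ch {I J : Ideal (𝓞 k)} (hI : I ≠ ⊥) (h : I ≤ J) {p : 𝓞 k → Prop} (hp : Per J p) :
    cnt I p * Ideal.absNorm J = cnt J p * Ideal.absNorm I := by
  rw [cnt_fib hI h hp, ← cnt_mem hI h]
  ring

open Classical in
/-- Chinese remainder theorem -/
theorem cnt_crt {J A B : Ideal (𝓞 k)} (hJ : J ≠ ⊥) (hA : A ≠ ⊥) (hB : B ≠ ⊥) (hAB : A ⊔ B = ⊤)
    {p q : 𝓞 k → Prop} (hp : Per (A * J) p) (hq : Per (B * J) q) :
    cnt (A * B * J) (fun x => x ∈ J ∧ p x ∧ q x) =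
      cnt (A * J) (fun x => x ∈ J ∧ p x) * cnt (B * J) (fun x => x ∈ J ∧ q x) := by
  have hABJ : A * B * J ≠ ⊥ := by
    simp only [Ne, Ideal.mul_eq_bot, not_or]
    exact ⟨⟨hA, hB⟩, hJ⟩
  have hAJ : A * J ≠ ⊥ := by
    simp only [Ne, Ideal.mul_eq_bot, not_or]
    exact ⟨hA, hJ⟩
  have hBJ : B * J ≠ ⊥ := by
    simp only [Ne, Ideal.mul_eq_bot, not_or]
    exact ⟨hB, hJ⟩
  have l1 : A * B * J ≤ A * J := Ideal.mul_mono_left Ideal.mul_le_left
  have l2 : A * B * J ≤ B * J := Ideal.mul_mono_left Ideal.mul_le_right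
  have l3 : A * J ≤ J := Ideal.mul_le_right
  have l4 : B * J ≤ J := Ideal.mul_le_right
  obtain ⟨a, ha, b, hb, hab⟩ := Submodule.mem_sup.1 ((Ideal.eq_top_iff_one _).1 hAB)
  have hinf : ∀ x, x ∈ A * J → x ∈ B * J → x ∈ A * B * J := by
    intro x h1 h2
    have e : x = a * x + b * x := by rw [← add_mul, hab, one_mul]
    rw [e]
    refine Ideal.add_mem _ ?_ ?_
    · rw [mul_assoc]
      exact Ideal.mul_mem_mul ha h2
    · rw [mul_comm A B, mul_assoc]
      exact Ideal.mul_mem_mul hb h1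
  unfold cnt
  rw [← Finset.card_product]
  refine Finset.card_bij (fun x _ => (rp (A * J) x, rp (B * J) x)) ?_ ?_ ?_
  · intro x hx
    rw [mem_cs] at hx
    rw [Finset.mem_product, mem_cs, mem_cs]
    obtain ⟨-, h1, h2, h3⟩ := hx
    exact ⟨⟨rp_mem hAJ x, (per_mem' l3 _ _ (rp_sub (A * J) x)).2 h1,
      (hp _ _ (rp_sub (A * J) x)).2 h2⟩, ⟨rp_mem hBJ x, (per_mem' l4 _ _ (rp_sub (B * J) x)).2 h1,
      (hq _ _ (rp_sub (B * J) x)).2 h3⟩⟩
  · intro x hx y hy he
    rw [mem_cs] at hx hy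
    rw [Prod.mk.injEq] at he
    refine Rs_inj hABJ hx.1 hy.1 (hinf _ ?_ ?_)
    · have h1 := rp_sub (A * J) x
      have h2 := rp_sub (A * J) y
      rw [he.1] at h1
      have := Ideal.sub_mem _ h2 h1
      have e : rp (A * J) y - y - (rp (A * J) y - x) = x - y := by ring
      rwa [e] at this
    · have h1 := rp_sub (B * J) x
      have h2 := rp_sub (B * J) y
      rw [he.2] at h1
      have := Ideal.sub_mem _ h2 h1
      have e : rp (B * J) y - y - (rp (B * J) y - x) = x - y := by ring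
      rwa [e] at this
  · rintro ⟨y, z⟩ hyz
    rw [Finset.mem_product, mem_cs, mem_cs] at hyz
    obtain ⟨⟨hy, hy1, hy2⟩, ⟨hz, hz1, hz2⟩⟩ := hyz
    simp only at hy hy1 hy2 hz hz1 hz2
    have hA1 : b * y + a * z - y ∈ A * J := by
      have e : b * y + a * z - y = a * (z - y) := by
        have : b = 1 - a := by rw [← hab]; ring
        rw [this]
        ring
      rw [e]
      exact Ideal.mul_mem_mul ha (J.sub_mem hz1 hy1)
    have hB1 : b * y + a * z - z ∈ B * J := by
      have e : b * y + a * z - z = b * (y - z) := by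
        have : a = 1 - b := by rw [← hab]; ring
        rw [this]
        ring
      rw [e]
      exact Ideal.mul_mem_mul hb (J.sub_mem hy1 hz1)
    have hx : rp (A * B * J) (b * y + a * z) - (b * y + a * z) ∈ A * B * J := rp_sub _ _
    have hA2 : rp (A * B * J) (b * y + a * z) - y ∈ A * J := by
      have := Ideal.add_mem _ (l1 hx) hA1
      have e : rp (A * B * J) (b * y + a * z) - (b * y + a * z) + (b * y + a * z - y) =
        rp (A * B * J) (b * y + a * z) - y := by ring
      rwa [e] at this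
    have hB2 : rp (A * B * J) (b * y + a * z) - z ∈ B * J := by
      have := Ideal.add_mem _ (l2 hx) hB1
      have e : rp (A * B * J) (b * y + a * z) - (b * y + a * z) + (b * y + a * z - z) =
        rp (A * B * J) (b * y + a * z) - z := by ring
      rwa [e] at this
    refine ⟨rp (A * B * J) (b * y + a * z), ?_, ?_⟩
    · rw [mem_cs]
      exact ⟨rp_mem hABJ _, (per_mem' l3 _ _ hA2).2 hy1, (hp _ _ hA2).2 hy2, (hq _ _ hB2).2 hz2⟩
    · rw [Prod.mk.injEq]
      refine ⟨?_, ?_⟩
      · rw [rp_eq hA2]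
        exact (mem_Rs hAJ y).1 hy
      · rw [rp_eq hB2]
        exact (mem_Rs hBJ z).1 hz

end Lib

end Pool.Agent.H57.NV
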